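import Pool.Agent.Lib.MP_a4170f_an.Golab5

/-!
MP_a4170f_an (optimal connected stiffeners): disproof of Q1.

For the open unit disc, every length budget `L > 0` and all sufficiently small stiffness `m > 0`,
the relaxed problem has a maximizer, and the optimal set of every maximizer is contained in the
open disc.
-/

open MeasureTheory Metric Set

namespace Pool.Agent.Results.MP_a4170f_an.InteriorOptimalSet

open Pool.Agent.Lib.MP_a4170f_an

theorem result : ∀ L : ℝ, 0 < L → ∃ m₀ : ℝ, 0 < m₀ ∧ ∀ m : ℝ, 0 < m → m < m₀ →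
    (∃ μ : Measure Pl, IsMaximizer (ball (0 : Pl) 1) m L μ) ∧
    ∀ μ : Measure Pl, IsMaximizer (ball (0 : Pl) 1) m L μ →
      μ.support ⊆ ball (0 : Pl) 1 ∧
      μ.support ∩ frontier (ball (0 : Pl) 1) = ∅ ∧
      lam1 (ball (0 : Pl) 1) m 0 < lam1 (ball (0 : Pl) 1) m μ := by
  intro L hL
  obtain ⟨μ₁, hμ₁, m₀, hm₀, h⟩ := compare hL
  refine ⟨m₀, hm₀, fun m hm0 hm1 => ⟨?_, fun μ hμ => ?_⟩⟩
  · exact exists_max golab hL hm0 hμ₁ (h m hm0 hm1).1
  · have hsub : μ.support ⊆ ball (0 : Pl) 1 := by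
      by_contra hcon
      exact absurd (hμ.2 μ₁ hμ₁) (not_le.2 ((h m hm0 hm1).2 μ hμ.1 hcon))
    refine ⟨hsub, ?_, (h m hm0 hm1).1.trans_le (hμ.2 μ₁ hμ₁)⟩
    rw [eq_empty_iff_forall_notMem]
    rintro x ⟨hx1, hx2⟩
    rw [isOpen_ball.frontier_eq] at hx2
    exact hx2.2 (hsub hx1)

end Pool.Agent.Results.MP_a4170f_an.InteriorOptimalSet
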